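import Mathlib
import Pool.Agent.Y451.LI.Seq
import Pool.Agent.Y451.LI.Logs

set_option autoImplicit false

open MeasureTheory ProbabilityTheory Filter
open scoped ENNReal NNReal

namespace Pool.Agent.Results.MP_1905b6_pr.IntegralTest

/-! ### Definitions used in the statement -/

/-- A generating measure on the group `Γ`: a probability measure on `Γ` (given by its mass
function) which is symmetric and whose support generates `Γ` as a group. -/
structure GeneratingMeasure (Γ : Type*) [Group Γ] where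
  /-- the probability mass function -/
  mass : PMF Γ
  /-- symmetry -/
  symm : ∀ g : Γ, mass g = mass g⁻¹
  /-- the support generates the group -/
  gen : Subgroup.closure mass.support = ⊤

/-- The unordered pairs `{g, h}` of distinct elements of `Γ`. -/
abbrev Pair (Γ : Type*) : Type _ := {e : Sym2 Γ // ¬ e.IsDiag}

/-- The weight `μ (g⁻¹ h)` of the pair `{g, h}`. -/
noncomputable def weight {Γ : Type*} [Group Γ] (μ : GeneratingMeasure Γ) : Sym2 Γ → ℝ≥0 :=
  Sym2.lift ⟨fun g h => (μ.mass (g⁻¹ * h)).toNNReal, fun g h => by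
    show (μ.mass (g⁻¹ * h)).toNNReal = (μ.mass (h⁻¹ * g)).toNNReal
    rw [μ.symm (g⁻¹ * h), mul_inv_rev, inv_inv]⟩

/-- The law of the random multigraph `Γ_μ(t)`: the multiplicities of the pairs are independent,
and the multiplicity of `{g, h}` is Poisson with mean `t μ (g⁻¹ h)`. -/
noncomputable def law {Γ : Type*} [Group Γ] (μ : GeneratingMeasure Γ) (t : ℝ≥0) :
    Measure (Pair Γ → ℕ) :=
  Measure.infinitePi fun e : Pair Γ => poissonMeasure (t * weight μ e)

/-- The graph obtained from the multiplicities `ω` by merging parallel edges: two distinct elements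
are joined when the multiplicity of the pair is positive. -/
def openGraph {Γ : Type*} (ω : Pair Γ → ℕ) : SimpleGraph Γ where
  Adj g h := ∃ hne : ¬ (s(g, h)).IsDiag, 0 < ω ⟨s(g, h), hne⟩
  symm := ⟨fun g h hgh => by
    obtain ⟨hne, hω⟩ := hgh
    have e : (s(h, g) : Sym2 Γ) = s(g, h) := Sym2.eq_swap
    refine ⟨by rwa [e], ?_⟩
    have : (⟨s(h, g), by rwa [e]⟩ : Pair Γ) = ⟨s(g, h), hne⟩ := Subtype.ext e
    rw [this]; exact hω⟩
  loopless := ⟨fun g hg => hg.1 (Sym2.mk_isDiag_iff.2 rfl)⟩

/-- The graph has an infinite connected component. -/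
def HasInfiniteComponent {V : Type*} (G : SimpleGraph V) : Prop :=
  ∃ C : G.ConnectedComponent, C.supp.Infinite

/-- The critical parameter `λ_c(μ)`: the supremum in `[0, ∞]` of the `t > 0` for which `Γ_μ(t)`
has an infinite connected component with probability zero. -/
noncomputable def criticalParameter {Γ : Type*} [Group Γ] (μ : GeneratingMeasure Γ) : ℝ≥0∞ :=
  sSup {s : ℝ≥0∞ | ∃ t : ℝ≥0, 0 < t ∧
    law μ t {ω | HasInfiniteComponent (openGraph ω)} = 0 ∧ s = (t : ℝ≥0∞)}

/-- The boundary `|∂S| = ∑_{g ∈ S, h ∉ S} μ (g⁻¹ h)` of a finite set. -/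
noncomputable def boundary {Γ : Type*} [Group Γ] (μ : GeneratingMeasure Γ) (S : Finset Γ) :
    ℝ≥0∞ :=
  ∑ g ∈ S, ∑' h : {h : Γ // h ∉ S}, μ.mass (g⁻¹ * (h : Γ))

/-! ### The measure -/

open Pool.Agent.TH994.LogIso Pool.Agent.Y451.LI

/-- the ratios of consecutive windows -/
abbrev Ratios : Type := {r : ℕ → ℕ // ∀ k, 1 ≤ r k}

variable {r : Ratios}

/-- The group: the direct product of `ℤ` and of the direct sum of countably many copies of `ℤ/2`,
written multiplicatively. -/
abbrev Gam : Type := Multiplicative X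

/-- the unnormalised weights -/
noncomputable def wt (r : Ratios) (x : X) : ℝ≥0∞ :=
  (if x = (1, 0) then 1 else 0) + (if x = (-1, 0) then 1 else 0) +
    ∑' i, if x = (0, gen i) then ENNReal.ofReal (be r.1 i) else 0

theorem gen_inj {i j : ℕ} (h : gen i = gen j) : i = j := by
  by_contra hne
  have := DFunLike.congr_fun h i
  rw [gen_self, gen_ne hne] at this
  exact absurd this (by decide)

theorem gen_ne_zero (i : ℕ) : gen i ≠ 0 := by
  intro h
  have := DFunLike.congr_fun h i
  rw [gen_self] at this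
  exact absurd this (by simp)

theorem f_line : wt r (1, 0) = 1 := by
  unfold wt
  have : ∀ i, ((1, 0) : X) ≠ (0, gen i) := fun i h => by simpa using congrArg Prod.fst h
  simp [this]

theorem f_line' : wt r (-1, 0) = 1 := by
  unfold wt
  have : ∀ i, ((-1, 0) : X) ≠ (0, gen i) := fun i h => by simpa using congrArg Prod.fst h
  simp [this]

theorem f_gen (i : ℕ) : wt r (0, gen i) = ENNReal.ofReal (be r.1 i) := by
  unfold wt
  have h1 : ((0, gen i) : X) ≠ (1, 0) := fun h => by simpa using congrArg Prod.fst h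
  have h2 : ((0, gen i) : X) ≠ (-1, 0) := fun h => by simpa using congrArg Prod.fst h
  rw [if_neg h1, if_neg h2, tsum_eq_single i]
  · simp
  · intro j hj
    rw [if_neg]
    intro h
    exact hj (gen_inj (congrArg Prod.snd h)).symm

theorem f_ne {x : X} (h : wt r x ≠ 0) : x = (1, 0) ∨ x = (-1, 0) ∨ ∃ i, x = (0, gen i) := by
  by_contra hno
  push Not at hno
  obtain ⟨h1, h2, h3⟩ := hno
  apply h
  unfold wt
  simp [h1, h2, h3]

theorem neg_gen (i : ℕ) : -gen i = gen i := by
  have := gen_add_gen i 0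
  rw [zero_add] at this
  exact neg_eq_of_add_eq_zero_left this

theorem f_neg (x : X) : wt r (-x) = wt r x := by
  unfold wt
  have h1 : -x = ((1, 0) : X) ↔ x = (-1, 0) := by
    rw [neg_eq_iff_eq_neg]; simp
  have h2 : -x = ((-1, 0) : X) ↔ x = (1, 0) := by
    rw [neg_eq_iff_eq_neg]; simp
  have h3 : ∀ i, -x = ((0, gen i) : X) ↔ x = (0, gen i) := by
    intro i
    rw [neg_eq_iff_eq_neg]; simp [neg_gen]
  simp only [h1, h2, h3]
  rw [add_comm (if x = (-1, 0) then (1 : ℝ≥0∞) else 0)]

theorem tsum_be : ∑' i, ENNReal.ofReal (be r.1 i) ≠ ⊤ := by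
  have h1 : ∀ i, be r.1 i ≤ (1 / 2 : ℝ) ^ i := by
    intro i
    unfold be
    rw [one_div_pow]
    apply one_div_le_one_div_of_le (by positivity)
    have : (1 : ℝ) ≤ Mm r.1 (i + 1) := by exact_mod_cast Mm_pos r.2 (i + 1)
    nlinarith [pow_pos (two_pos : (0 : ℝ) < 2) i]
  have h2 : ∑' i, ENNReal.ofReal (be r.1 i) ≤ ∑' i, ENNReal.ofReal ((1 / 2 : ℝ) ^ i) :=
    ENNReal.tsum_le_tsum fun i => ENNReal.ofReal_le_ofReal (h1 i)
  rw [← ENNReal.ofReal_tsum_of_nonneg (fun i => by positivity)
    (summable_geometric_of_lt_one (by norm_num) (by norm_num))] at h2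
  exact ne_top_of_le_ne_top ENNReal.ofReal_ne_top h2

theorem tsum_f : ∑' x, wt r x = 1 + 1 + ∑' i, ENNReal.ofReal (be r.1 i) := by
  unfold wt
  rw [ENNReal.tsum_add, ENNReal.tsum_add, ENNReal.tsum_comm, tsum_ite_eq, tsum_ite_eq]
  congr 1
  exact tsum_congr fun i => tsum_ite_eq _ _

theorem tsum_f_ne_top : ∑' x, wt r x ≠ ⊤ := by
  rw [tsum_f]
  exact ENNReal.add_ne_top.2 ⟨by norm_num, tsum_be⟩

theorem tsum_f_ne_zero : ∑' x, wt r x ≠ 0 := by
  rw [tsum_f]; simp

/-- the unnormalised weights on the group -/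
noncomputable def wG (r : Ratios) (g : Gam) : ℝ≥0∞ := wt r (Multiplicative.toAdd g)

theorem tsum_fG : ∑' g, wG r g = ∑' x, wt r x :=
  Multiplicative.toAdd.tsum_eq (wt r)

/-- the measure -/
noncomputable def mu (r : Ratios) : GeneratingMeasure Gam where
  mass := PMF.normalize (wG r) (by rw [tsum_fG]; exact tsum_f_ne_zero)
    (by rw [tsum_fG]; exact tsum_f_ne_top)
  symm := by
    intro g
    rw [PMF.normalize_apply, PMF.normalize_apply]
    congr 1
    unfold wG
    rw [toAdd_inv, f_neg]
  gen := by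
    set K := Subgroup.closure (PMF.normalize (wG r) (by rw [tsum_fG]; exact tsum_f_ne_zero)
      (by rw [tsum_fG]; exact tsum_f_ne_top)).support with hK
    have hmem : ∀ x : X, wt r x ≠ 0 → Multiplicative.ofAdd x ∈ K := by
      intro x hx
      apply Subgroup.subset_closure
      rw [PMF.mem_support_normalize_iff]
      exact hx
    have hline : ∀ y : ℤ, Multiplicative.ofAdd ((y, 0) : X) ∈ K := by
      intro y
      have h1 : Multiplicative.ofAdd ((1, 0) : X) ∈ K := hmem _ (by rw [f_line]; norm_num)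
      have h2 := K.zpow_mem h1 y
      rw [← ofAdd_zsmul] at h2
      have e : y • ((1, 0) : X) = (y, 0) := by
        ext <;> simp
      rwa [e] at h2
    have hfib : ∀ h : H, Multiplicative.ofAdd ((0, h) : X) ∈ K := by
      intro h
      induction h using Finsupp.induction_linear with
      | zero => exact hline 0
      | add u v hu hv =>
        have := K.mul_mem hu hv
        rw [← ofAdd_add] at this
        have e : ((0, u) : X) + (0, v) = (0, u + v) := by simp
        rwa [e] at this
      | single i a =>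
        have ha : a = 0 ∨ a = 1 := by revert a; decide
        rcases ha with rfl | rfl
        · rw [Finsupp.single_zero]; exact hline 0
        · refine hmem _ ?_
          have : wt r (0, Finsupp.single i 1) = ENNReal.ofReal (be r.1 i) := f_gen i
          rw [this]
          exact (ENNReal.ofReal_pos.2 (be_pos r.2 i)).ne'
    rw [eq_top_iff]
    intro g _
    have := K.mul_mem (hline (Multiplicative.toAdd g).1) (hfib (Multiplicative.toAdd g).2)
    rw [← ofAdd_add] at this
    have e : (((Multiplicative.toAdd g).1, 0) : X) + (0, (Multiplicative.toAdd g).2) =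
        Multiplicative.toAdd g := by
      ext <;> simp
    rw [e] at this
    exact this

/-- the normalisation -/
noncomputable def Z (r : Ratios) : ℝ≥0∞ := ∑' x, wt r x

theorem mass_eq (g : Gam) : (mu r).mass g = wt r (Multiplicative.toAdd g) * (Z r)⁻¹ := by
  unfold mu
  simp only [PMF.normalize_apply, tsum_fG]
  rfl

theorem Z_ne_zero : Z r ≠ 0 := tsum_f_ne_zero

theorem Z_ne_top : Z r ≠ ⊤ := tsum_f_ne_top

theorem Zr_pos : 0 < (Z r).toReal := ENNReal.toReal_pos Z_ne_zero Z_ne_top

/-! ### Isoperimetry -/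

/-- a finite nonempty set of `H` closed under the first `k` generators has at least `2 ^ k`
elements -/
theorem card_closed (k : ℕ) (T : Finset H) (hT : T.Nonempty)
    (hc : ∀ h ∈ T, ∀ i < k, h + gen i ∈ T) : 2 ^ k ≤ T.card := by
  classical
  induction k generalizing T with
  | zero => simpa using Finset.card_pos.2 hT
  | succ k ih =>
    obtain ⟨h0, hh0⟩ := hT
    have h1 : ∀ a : ZMod 2, (T.filter (fun h => h k = a)).Nonempty := by
      intro a
      rcases zmod2 a (h0 k) with ha | ha
      · exact ⟨h0, Finset.mem_filter.2 ⟨hh0, ha.symm⟩⟩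
      · refine ⟨h0 + gen k, Finset.mem_filter.2 ⟨hc h0 hh0 k (by omega), ?_⟩⟩
        rw [Finsupp.add_apply, gen_self, ha]
    have h2 : ∀ a : ZMod 2, ∀ h ∈ T.filter (fun h => h k = a), ∀ i < k,
        h + gen i ∈ T.filter (fun h => h k = a) := by
      intro a h hh i hi
      rw [Finset.mem_filter] at hh ⊢
      refine ⟨hc h hh.1 i (by omega), ?_⟩
      rw [Finsupp.add_apply, gen_ne (by omega), add_zero]
      exact hh.2
    have h3 := ih _ (h1 0) (h2 0)
    have h4 := ih _ (h1 1) (h2 1)
    have h5 : Disjoint (T.filter (fun h => h k = 0)) (T.filter (fun h => h k = 1)) := by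
      rw [Finset.disjoint_left]
      intro h ha hb
      rw [Finset.mem_filter] at ha hb
      rw [ha.2] at hb
      exact absurd hb.2 (by decide)
    have h6 := Finset.card_le_card (Finset.union_subset (Finset.filter_subset
      (fun h : H => h k = 0) T) (Finset.filter_subset (fun h : H => h k = 1) T))
    rw [Finset.card_union_of_disjoint h5] at h6
    rw [pow_succ]; omega

/-- lower bound for the boundary from a set of elements with a neighbour outside -/
theorem boundary_ge {S A : Finset Gam} (hA : A ⊆ S) {w : ℝ≥0∞}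
    (h : ∀ g ∈ A, ∃ u : Gam, g * u ∉ S ∧ w ≤ wt r (Multiplicative.toAdd u)) :
    A.card * (w * (Z r)⁻¹) ≤ boundary (mu r) S := by
  unfold boundary
  rw [← nsmul_eq_mul, ← Finset.sum_const]
  refine le_trans (Finset.sum_le_sum fun g hg => ?_) (Finset.sum_le_sum_of_subset hA)
  obtain ⟨u, hu, hw⟩ := h g hg
  refine le_trans ?_ (ENNReal.le_tsum (⟨g * u, hu⟩ : {h : Gam // h ∉ S}))
  rw [inv_mul_cancel_left, mass_eq]
  gcongr

open Classical in
theorem iso_line (S : Finset Gam) :
    ((S.image (fun g => (Multiplicative.toAdd g).2)).card : ℝ≥0∞) * (Z r)⁻¹ ≤ boundary (mu r) S := by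
  set A := S.filter (fun g => g * Multiplicative.ofAdd ((1, 0) : X) ∉ S) with hA
  have h1 : (S.image (fun g => (Multiplicative.toAdd g).2)).card ≤ A.card := by
    refine le_trans (Finset.card_le_card ?_)
      (Finset.card_image_le (s := A) (f := fun g => (Multiplicative.toAdd g).2))
    intro h hh
    obtain ⟨g0, hg0, rfl⟩ := Finset.mem_image.1 hh
    obtain ⟨g, hg, hmax⟩ := Finset.exists_max_image
      (S.filter (fun g => (Multiplicative.toAdd g).2 = (Multiplicative.toAdd g0).2))
      (fun g => (Multiplicative.toAdd g).1) ⟨g0, Finset.mem_filter.2 ⟨hg0, rfl⟩⟩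
    rw [Finset.mem_filter] at hg
    refine Finset.mem_image.2 ⟨g, Finset.mem_filter.2 ⟨hg.1, fun hno => ?_⟩, hg.2⟩
    have h2 := hmax (g * Multiplicative.ofAdd ((1, 0) : X)) (Finset.mem_filter.2 ⟨hno, by
      simp [hg.2]⟩)
    simp at h2
  have h2 := boundary_ge (r := r) (S := S) (A := A) (Finset.filter_subset _ _) (w := 1) (fun g hg =>
    ⟨Multiplicative.ofAdd ((1, 0) : X), (Finset.mem_filter.1 hg).2, by
      show 1 ≤ wt r (1, 0)
      rw [f_line]⟩)
  rw [one_mul] at h2
  refine le_trans ?_ h2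
  gcongr

theorem be_anti : Antitone (be r.1) := antitone_nat_of_succ_le fun i => by
  have := be_half r.2 i
  have := be_pos r.2 i
  linarith

open Classical in
theorem iso_fib (S : Finset Gam) (k : ℕ)
    (hk : (S.image (fun g => (Multiplicative.toAdd g).2)).card < 2 ^ (k + 1)) :
    ((S.image (fun g => (Multiplicative.toAdd g).1)).card : ℝ≥0∞) *
      (ENNReal.ofReal (be r.1 k) * (Z r)⁻¹) ≤ boundary (mu r) S := by
  set A := S.filter (fun g => ∃ i < k + 1, g * Multiplicative.ofAdd ((0, gen i) : X) ∉ S) with hA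
  have h1 : (S.image (fun g => (Multiplicative.toAdd g).1)).card ≤ A.card := by
    refine le_trans (Finset.card_le_card ?_)
      (Finset.card_image_le (s := A) (f := fun g => (Multiplicative.toAdd g).1))
    intro y hy
    obtain ⟨g0, hg0, rfl⟩ := Finset.mem_image.1 hy
    by_contra hno
    set T := (S.filter (fun g => (Multiplicative.toAdd g).1 = (Multiplicative.toAdd g0).1)).image
      (fun g => (Multiplicative.toAdd g).2) with hT
    have hTne : T.Nonempty := ⟨(Multiplicative.toAdd g0).2, Finset.mem_image.2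
      ⟨g0, Finset.mem_filter.2 ⟨hg0, rfl⟩, rfl⟩⟩
    have h2 := card_closed (k + 1) T hTne (by
      intro h hh i hi
      obtain ⟨g, hg, rfl⟩ := Finset.mem_image.1 hh
      rw [Finset.mem_filter] at hg
      refine Finset.mem_image.2 ⟨g * Multiplicative.ofAdd ((0, gen i) : X),
        Finset.mem_filter.2 ⟨?_, ?_⟩, ?_⟩
      · by_contra hno'
        exact hno (Finset.mem_image.2 ⟨g, Finset.mem_filter.2 ⟨hg.1, i, hi, hno'⟩, hg.2⟩)
      · simp [hg.2]
      · simp)
    have h3 : T.card ≤ (S.image (fun g => (Multiplicative.toAdd g).2)).card :=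
      Finset.card_le_card (Finset.image_subset_image (Finset.filter_subset _ _))
    omega
  have h2 := boundary_ge (r := r) (S := S) (A := A) (Finset.filter_subset _ _)
    (w := ENNReal.ofReal (be r.1 k)) (fun g hg => by
      obtain ⟨i, hi, h⟩ := (Finset.mem_filter.1 hg).2
      refine ⟨_, h, ?_⟩
      show ENNReal.ofReal (be r.1 k) ≤ wt r (0, gen i)
      rw [f_gen]
      exact ENNReal.ofReal_le_ofReal (be_anti (by omega)))
  refine le_trans ?_ h2
  gcongr

theorem boundary_ne_top (S : Finset Gam) : boundary (mu r) S ≠ ⊤ := by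
  unfold boundary
  refine ENNReal.sum_ne_top.2 fun g _ => ?_
  have h1 : ∑' h : {h : Gam // h ∉ S}, (mu r).mass (g⁻¹ * (h : Gam)) ≤
      ∑' h : Gam, (mu r).mass (g⁻¹ * h) :=
    ENNReal.tsum_comp_le_tsum_of_injective Subtype.val_injective _
  have h2 : ∑' h : Gam, (mu r).mass (g⁻¹ * h) = 1 :=
    ((Equiv.mulLeft g⁻¹).tsum_eq (fun h => (mu r).mass h)).trans (mu r).mass.tsum_coe
  rw [h2] at h1
  exact ne_top_of_le_ne_top ENNReal.one_ne_top h1

theorem Mm_mono : Monotone (Mm r.1) := monotone_nat_of_le_succ fun k => by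
  rw [Mm_succ]
  exact Nat.le_mul_of_pos_left _ (by have := r.2 k; omega)

open Classical in
theorem iso {f : ℕ → ℝ} (hf : Monotone f) {C : ℝ} (hC : 0 < C)
    (hfC : ∀ k, f (8 ^ (k + 1) * Mm r.1 (k + 1)) ≤ C * 2 ^ k) (S : Finset Gam)
    (hS : S.Nonempty) :
    ENNReal.ofReal (1 / (2 * C * (Z r).toReal) * f S.card) < boundary (mu r) S := by
  set m := (S.image (fun g => (Multiplicative.toAdd g).2)).card with hm
  set l := (S.image (fun g => (Multiplicative.toAdd g).1)).card with hl
  set b := (boundary (mu r) S).toReal with hb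
  set ζ := (Z r).toReal with hζ
  have hζ0 : 0 < ζ := Zr_pos
  have hm0 : 0 < m := Finset.card_pos.2 (hS.image _)
  have hZi : ((Z r)⁻¹).toReal = ζ⁻¹ := ENNReal.toReal_inv (Z r)
  -- the two bounds
  have h1 : (m : ℝ) ≤ ζ * b := by
    have h := ENNReal.toReal_mono (boundary_ne_top (r := r) S) (iso_line (r := r) S)
    rw [ENNReal.toReal_mul, hZi, ENNReal.toReal_natCast, ← div_eq_mul_inv,
      div_le_iff₀ hζ0] at h
    linarith
  set k := Nat.log 2 m with hk
  have hk2 : m < 2 ^ (k + 1) := Nat.lt_pow_succ_log_self (by norm_num) m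
  have h2 : (l : ℝ) * be r.1 k ≤ ζ * b := by
    have h := ENNReal.toReal_mono (boundary_ne_top (r := r) S) (iso_fib (r := r) S k hk2)
    rw [ENNReal.toReal_mul, ENNReal.toReal_mul, hZi, ENNReal.toReal_natCast,
      ENNReal.toReal_ofReal (be_pos r.2 k).le, ← mul_assoc, ← div_eq_mul_inv,
      div_le_iff₀ hζ0] at h
    linarith
  have h3 : S.card ≤ l * m := by
    have hsub : S ⊆ (((S.image (fun g => (Multiplicative.toAdd g).1)) ×ˢ
        (S.image (fun g => (Multiplicative.toAdd g).2))).image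
          (fun p => (Multiplicative.ofAdd ((p.1, p.2) : X)))) := by
      intro g hg
      refine Finset.mem_image.2 ⟨((Multiplicative.toAdd g).1, (Multiplicative.toAdd g).2),
        Finset.mem_product.2 ⟨Finset.mem_image_of_mem _ hg, Finset.mem_image_of_mem _ hg⟩, rfl⟩
    refine (Finset.card_le_card hsub).trans (Finset.card_image_le.trans ?_)
    rw [Finset.card_product]
  have hb0 : 0 < ζ * b := lt_of_lt_of_le (by exact_mod_cast hm0) h1
  have hbpos : 0 < b := by
    by_contra hno
    have : ζ * b ≤ 0 := mul_nonpos_of_nonneg_of_nonpos hζ0.le (not_lt.1 hno)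
    linarith
  -- the scale of the boundary
  set B := ⌊ζ * b⌋₊ with hB
  have hmB : m ≤ B := Nat.le_floor h1
  have hB1 : B ≠ 0 := by omega
  have hBle : (B : ℝ) ≤ ζ * b := Nat.floor_le hb0.le
  have hBlt : ζ * b < B + 1 := Nat.lt_floor_add_one _
  set K := Nat.log 2 B with hK
  have hkK : k ≤ K := Nat.log_mono_right hmB
  have hK1 : 2 ^ K ≤ B := Nat.pow_log_le_self 2 hB1
  have hK2 : B < 2 ^ (K + 1) := Nat.lt_pow_succ_log_self (by norm_num) B
  have hK1' : (2 : ℝ) ^ K ≤ ζ * b := by
    have : ((2 ^ K : ℕ) : ℝ) ≤ B := by exact_mod_cast hK1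
    push_cast at this
    linarith
  have hK2' : ζ * b ≤ 2 ^ (K + 1) := by
    have : ((B + 1 : ℕ) : ℝ) ≤ ((2 ^ (K + 1) : ℕ) : ℝ) := by exact_mod_cast hK2
    push_cast at this
    linarith
  have hMk : (0 : ℝ) < Mm r.1 (k + 1) := by exact_mod_cast Mm_pos r.2 (k + 1)
  have h4 : (l : ℝ) ≤ (ζ * b) * (2 ^ k * Mm r.1 (k + 1)) := by
    unfold be at h2
    rw [mul_one_div, div_le_iff₀ (by positivity)] at h2
    exact h2
  have hMM : (Mm r.1 (k + 1) : ℝ) ≤ Mm r.1 (K + 1) := by exact_mod_cast Mm_mono (by omega)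
  have h2kK : (2 : ℝ) ^ k ≤ 2 ^ K := pow_le_pow_right₀ (by norm_num) hkK
  have hm2 : (m : ℝ) ≤ 2 ^ (K + 1) := h1.trans hK2'
  have h5 : (S.card : ℝ) ≤ 8 ^ (K + 1) * Mm r.1 (K + 1) := by
    have hl0 : (0 : ℝ) ≤ l := Nat.cast_nonneg l
    have hpK : (0 : ℝ) < 2 ^ K := by positivity
    calc (S.card : ℝ) ≤ l * m := by exact_mod_cast h3
      _ ≤ ((ζ * b) * (2 ^ k * Mm r.1 (k + 1))) * 2 ^ (K + 1) :=
          mul_le_mul h4 hm2 (Nat.cast_nonneg m) (by positivity)
      _ ≤ (2 ^ (K + 1) * (2 ^ K * Mm r.1 (K + 1))) * 2 ^ (K + 1) := by gcongr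
      _ = (4 * (2 ^ K * 2 ^ K * 2 ^ K)) * Mm r.1 (K + 1) := by rw [pow_succ]; ring
      _ ≤ 8 ^ (K + 1) * Mm r.1 (K + 1) := by
          refine mul_le_mul_of_nonneg_right ?_ (by positivity)
          have e : (8 : ℝ) ^ (K + 1) = 8 * (2 ^ K * 2 ^ K * 2 ^ K) := by
            rw [pow_succ, show (8 : ℝ) = 2 * 2 * 2 by norm_num, mul_pow, mul_pow]; ring
          rw [e]
          nlinarith [mul_pos (mul_pos hpK hpK) hpK]
  have h6 : S.card ≤ 8 ^ (K + 1) * Mm r.1 (K + 1) := by exact_mod_cast h5
  have h7 : f S.card ≤ C * (ζ * b) :=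
    (hf h6).trans ((hfC K).trans (mul_le_mul_of_nonneg_left hK1' hC.le))
  have h10 : 1 / (2 * C * ζ) * f S.card < b := by
    calc 1 / (2 * C * ζ) * f S.card ≤ 1 / (2 * C * ζ) * (C * (ζ * b)) := by gcongr
      _ = 1 / 2 * b := by field_simp
      _ < b := by linarith
  rw [← ENNReal.ofReal_toReal (boundary_ne_top (r := r) S)]
  exact (ENNReal.ofReal_lt_ofReal_iff hbpos).2 h10

/-! ### Absence of percolation -/

theorem weight_real (x y : Gam) : ((weight (mu r) s(x, y) : ℝ≥0) : ℝ) =
    (wt r (Multiplicative.toAdd y - Multiplicative.toAdd x)).toReal / (Z r).toReal := by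
  show (((mu r).mass (x⁻¹ * y)).toNNReal : ℝ) = _
  rw [ENNReal.coe_toNNReal_eq_toReal, mass_eq, ENNReal.toReal_mul, ENNReal.toReal_inv,
    div_eq_mul_inv]
  congr 3
  rw [toAdd_mul, toAdd_inv, neg_add_eq_sub]

theorem no_perc (hrt : Tendsto r.1 atTop atTop)
    (hdiv : ¬ Summable fun k : ℕ => Real.log (r.1 k) / 2 ^ k) (t : ℝ≥0) (o : Gam) :
    law (mu r) t {ω | {y | (openGraph ω).Reachable o y}.Infinite} = 0 := by
  have hp : ∀ (e : Pair Gam), (poissonMeasure (t * weight (mu r) e)).real {0} =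
      Real.exp (-(t * weight (mu r) e)) := by
    intro e
    rw [poissonMeasure_real_singleton]
    simp
  refine Pool.Agent.Y451.LI.no_infinite r.2 hrt hdiv (P := fun e : PairT X => poissonMeasure (t * weight (mu r) e.1))
    (G := fun ω => openGraph (Γ := Gam) ω) (τ := t / (Z r).toReal) (fun _ _ _ => Iff.rfl)
    ?_ ?_ ?_ ?_ o
  · intro x
    refine (hp (pl x)).trans ?_
    congr 2
    have h := weight_real (r := r) (Multiplicative.ofAdd x) (Multiplicative.ofAdd (x.1 + 1, x.2))
    have e : Multiplicative.toAdd (Multiplicative.ofAdd ((x.1 + 1, x.2) : X)) -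
        Multiplicative.toAdd (Multiplicative.ofAdd x) = (1, 0) := by
      ext <;> simp
    rw [e, f_line, ENNReal.toReal_one] at h
    show (t : ℝ) * (weight (mu r) s(Multiplicative.ofAdd x, Multiplicative.ofAdd (x.1 + 1, x.2)) : ℝ) =
      _
    rw [h]; ring
  · intro i x
    refine (hp (pk i x)).trans ?_
    have h := weight_real (r := r) (Multiplicative.ofAdd x) (Multiplicative.ofAdd (x.1, x.2 + gen i))
    have e : Multiplicative.toAdd (Multiplicative.ofAdd ((x.1, x.2 + gen i) : X)) -
        Multiplicative.toAdd (Multiplicative.ofAdd x) = (0, gen i) := by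
      ext <;> simp
    rw [e, f_gen, ENNReal.toReal_ofReal (be_pos r.2 i).le] at h
    congr 1
    show -((t : ℝ) * (weight (mu r) s(Multiplicative.ofAdd x, Multiplicative.ofAdd (x.1, x.2 + gen i))
      : ℝ)) = _
    rw [h]; ring
  · exact div_nonneg t.2 Zr_pos.le
  · intro x z hd hnb
    have h := weight_real (r := r) (Multiplicative.ofAdd x) (Multiplicative.ofAdd z)
    have e : wt r (Multiplicative.toAdd (Multiplicative.ofAdd z) -
        Multiplicative.toAdd (Multiplicative.ofAdd x)) = 0 := by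
      by_contra hno
      apply hnb
      rcases f_ne hno with h1 | h1 | ⟨i, h1⟩
      · have h2 := congrArg Prod.fst h1
        have h3 := congrArg Prod.snd h1
        simp only [toAdd_ofAdd, Prod.fst_sub, Prod.snd_sub] at h2 h3
        exact Or.inl ⟨(sub_eq_zero.1 h3).symm, Or.inl (by omega)⟩
      · have h2 := congrArg Prod.fst h1
        have h3 := congrArg Prod.snd h1
        simp only [toAdd_ofAdd, Prod.fst_sub, Prod.snd_sub] at h2 h3
        exact Or.inl ⟨(sub_eq_zero.1 h3).symm, Or.inr (by omega)⟩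
      · have h2 := congrArg Prod.fst h1
        have h3 := congrArg Prod.snd h1
        simp only [toAdd_ofAdd, Prod.fst_sub, Prod.snd_sub] at h2 h3
        exact Or.inr ⟨by omega, i, by rw [← h3]; abel⟩
    rw [e] at h
    have hw : weight (mu r) s(Multiplicative.ofAdd x, Multiplicative.ofAdd z) = 0 := by
      have : ((weight (mu r) s(Multiplicative.ofAdd x, Multiplicative.ofAdd z) : ℝ≥0) : ℝ) = 0 := by
        rw [h]; simp
      exact_mod_cast this
    show poissonMeasure (t * weight (mu r) s(Multiplicative.ofAdd x, Multiplicative.ofAdd z)) {0} = 1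
    rw [hw, poissonMeasure_singleton]
    simp

/-- `IsoperimetryInsufficient f`: there is a generating measure `μ` on a countable group with
`|∂S| > c f(|S|)` for every finite nonempty `S` (for some `c > 0`) such that for every `t > 0`
almost surely `Γ_μ(t)` has no infinite component; so `λ_c(μ) = ∞`. -/
def IsoperimetryInsufficient (f : ℕ → ℝ) : Prop :=
  ∃ (Γ : Type) (_ : Group Γ) (_ : Countable Γ) (μ : GeneratingMeasure Γ) (c : ℝ),
    0 < c ∧
    (∀ S : Finset Γ, S.Nonempty → ENNReal.ofReal (c * f S.card) < boundary μ S) ∧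
    (∀ t : ℝ≥0, 0 < t → law μ t {ω | HasInfiniteComponent (openGraph ω)} = 0) ∧
    criticalParameter μ = ⊤

theorem main {f : ℕ → ℝ} (hf : Monotone f) (hpos : ∀ n, 0 < f n) (ht : Tendsto f atTop atTop)
    (hsq : ∃ C : ℝ, ∀ n, f (n ^ 2) ≤ C * f n)
    (hdiv : ¬ Summable fun n : ℕ => 1 / ((n : ℝ) * f n)) : IsoperimetryInsufficient f := by
  obtain ⟨r0, hr1, hr2, hr3, C, hC, hfC⟩ := exists_ratios hf hpos ht hsq hdiv
  set r : Ratios := ⟨r0, hr1⟩ with hr
  have hcount : Countable Gam := (inferInstance : Countable X)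
  have h0 : ∀ t : ℝ≥0, law (mu r) t {ω | HasInfiniteComponent (openGraph ω)} = 0 := by
    intro t
    refine measure_mono_null ?_ (measure_iUnion_null fun o : Gam => no_perc (r := r) hr2 hr3 t o)
    rintro ω ⟨C, hC⟩
    rw [Set.mem_iUnion]
    obtain ⟨o, ho⟩ := C.exists_rep
    refine ⟨o, Set.Infinite.mono ?_ hC⟩
    intro y hy
    rw [SimpleGraph.ConnectedComponent.mem_supp_iff, ← ho] at hy
    exact (SimpleGraph.ConnectedComponent.eq.1 hy).symm
  refine ⟨Gam, inferInstance, hcount, mu r, 1 / (2 * C * (Z r).toReal),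
    by have := Zr_pos (r := r); positivity, fun S hS => iso hf hC hfC S hS, fun t _ => h0 t, ?_⟩
  rw [eq_top_iff, ← ENNReal.iSup_natCast]
  refine iSup_le fun n => ?_
  refine le_trans ?_ (le_sSup ⟨((n + 1 : ℕ) : ℝ≥0), by positivity, h0 _, rfl⟩)
  rw [ENNReal.coe_natCast]
  exact_mod_cast Nat.le_succ n

/-- **The integral test: isoperimetry of divergent type never implies a finite critical
parameter.** (1) For every positive nondecreasing unbounded `f` with `f(n²) ≤ C f(n)` and
`∑ 1 / (n f(n)) = ∞` there are a countable group and a generating measure `μ` with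
`|∂S| > c f(|S|)` for all finite nonempty `S` and without infinite components for every `t`, so
`λ_c(μ) = ∞`. (2) This applies to the product of the first `m + 1` iterated logarithms
`lg(n) · lg(lg(n)) ⋯`, `lg(x) = 1 + log(1 + x)`, for every `m`. (3) In particular (the negated form
of the question) `|∂S| > c log |S|` does not imply `λ_c(μ) < ∞`. -/
theorem result :
    (∀ f : ℕ → ℝ, Monotone f → (∀ n, 0 < f n) → Tendsto f atTop atTop →
      (∃ C : ℝ, ∀ n, f (n ^ 2) ≤ C * f n) →
      (¬ Summable fun n : ℕ => 1 / ((n : ℝ) * f n)) → IsoperimetryInsufficient f) ∧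
    (∀ m : ℕ, IsoperimetryInsufficient fun n => lgProd (m + 1) n) ∧
    IsoperimetryInsufficient fun n => Real.log n := by
  have h2 : ∀ m : ℕ, IsoperimetryInsufficient fun n => lgProd (m + 1) n := fun m =>
    main (lgProd_mono _) (lgProd_pos _) (lgProd_tendsto m) ⟨_, lgProd_sq _⟩ (lgProd_div _)
  refine ⟨fun f h1 h2 h3 h4 h5 => main h1 h2 h3 h4 h5, h2, ?_⟩
  obtain ⟨Γ, i1, i2, μ, c, hc, h3, h4⟩ := h2 0
  refine ⟨Γ, i1, i2, μ, c, hc, fun S hS => lt_of_le_of_lt ?_ (h3 S hS), h4⟩
  exact ENNReal.ofReal_le_ofReal (mul_le_mul_of_nonneg_left (log_le_lgProd_one _) hc.le)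

end Pool.Agent.Results.MP_1905b6_pr.IntegralTest
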